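import Mathlib

set_option autoImplicit false

/-!
The points where a concave Lipschitz function is not differentiable lie on countably many Lipschitz
graphs.
-/

open Set Filter Topology Metric
open scoped NNReal

namespace Pool.Agent.Helper37.Pe

/-- One-sided derivatives of concave functions. -/
theorem deriv_or_jump {φ : ℝ → ℝ} (hφ : ConcaveOn ℝ univ φ) {L : ℝ}
    (hL : ∀ t, |φ t - φ 0| ≤ L * |t|) :
    (∃ d, HasDerivAt φ d 0) ∨ ∃ p q : ℚ, p < q ∧ (∀ t : ℝ, 0 ≤ t → φ t ≤ φ 0 + p * t) ∧
      ∀ t : ℝ, t ≤ 0 → φ t ≤ φ 0 + q * t := by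
  -- the slopes are antitone
  have hs : ∀ s t : ℝ, s ≠ 0 → t ≠ 0 → s ≤ t → (φ t - φ 0) / t ≤ (φ s - φ 0) / s := by
    intro s t hs0 ht0 hst
    rcases eq_or_lt_of_le hst with rfl | hlt
    · exact le_rfl
    have h := hφ.2
    rcases lt_or_gt_of_ne hs0 with hsn | hsp
    · rcases lt_or_gt_of_ne ht0 with htn | htp
      · -- s < t < 0 : t is a convex combination of s and 0
        have h1 := h (mem_univ s) (mem_univ 0) (a := t / s) (b := 1 - t / s)
          (div_nonneg_of_nonpos htn.le hsn.le) (by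
            rw [sub_nonneg, div_le_one_of_neg hsn]; exact hst) (by ring)
        simp only [smul_eq_mul, mul_zero, add_zero] at h1
        rw [div_mul_cancel₀ _ hs0] at h1
        have h2 : t / s * (φ s - φ 0) ≤ φ t - φ 0 := by linarith
        have h3 : t / s * (φ s - φ 0) = t * ((φ s - φ 0) / s) := by ring
        rw [h3] at h2
        rw [div_le_iff_of_neg htn]
        linarith
      · -- s < 0 < t
        have hts : 0 < t - s := by linarith
        have h1 := h (mem_univ s) (mem_univ t) (a := t / (t - s)) (b := -s / (t - s))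
          (by positivity) (div_nonneg (by linarith) hts.le) (by field_simp; ring)
        simp only [smul_eq_mul] at h1
        have h2 : t / (t - s) * s + -s / (t - s) * t = 0 := by field_simp; ring
        rw [h2] at h1
        have h3 : t * (φ s - φ 0) - s * (φ t - φ 0) ≤ 0 := by
          have h4 : (t - s) * (t / (t - s) * φ s + -s / (t - s) * φ t) ≤ (t - s) * φ 0 :=
            mul_le_mul_of_nonneg_left h1 hts.le
          have h5 : (t - s) * (t / (t - s) * φ s + -s / (t - s) * φ t) = t * φ s - s * φ t := by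
            field_simp
            ring
          rw [h5] at h4
          linarith
        rw [div_le_iff₀ htp, div_mul_eq_mul_div, le_div_iff_of_neg hsn]
        linarith
    · -- 0 < s < t
      have htp : 0 < t := by linarith
      have h1 := h (mem_univ t) (mem_univ 0) (a := s / t) (b := 1 - s / t)
        (by positivity) (by rw [sub_nonneg, div_le_one htp]; exact hst) (by ring)
      simp only [smul_eq_mul, mul_zero, add_zero] at h1
      rw [div_mul_cancel₀ _ ht0] at h1
      have h2 : s / t * (φ t - φ 0) ≤ φ s - φ 0 := by linarith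
      have h3 : s / t * (φ t - φ 0) = s * ((φ t - φ 0) / t) := by ring
      rw [h3] at h2
      rw [le_div_iff₀ hsp]
      linarith
  have hb : ∀ t : ℝ, t ≠ 0 → |(φ t - φ 0) / t| ≤ L := by
    intro t ht
    rw [abs_div, div_le_iff₀ (abs_pos.2 ht)]
    exact hL t
  set Rs : Set ℝ := (fun t => (φ t - φ 0) / t) '' Ioi 0 with hRs
  set Ls : Set ℝ := (fun t => (φ t - φ 0) / t) '' Iio 0 with hLs
  have hRne : Rs.Nonempty := ⟨_, 1, by simp, rfl⟩
  have hLne : Ls.Nonempty := ⟨_, -1, by simp, rfl⟩
  have hRb : BddAbove Rs := ⟨L, by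
    rintro _ ⟨t, ht, rfl⟩
    exact (abs_le.1 (hb t (ne_of_gt ht))).2⟩
  have hLb : BddBelow Ls := ⟨-L, by
    rintro _ ⟨t, ht, rfl⟩
    exact (abs_le.1 (hb t (ne_of_lt ht))).1⟩
  have hRt : ∀ t : ℝ, 0 < t → (φ t - φ 0) / t ≤ sSup Rs := fun t ht =>
    le_csSup hRb ⟨t, ht, rfl⟩
  have hLt : ∀ t : ℝ, t < 0 → sInf Ls ≤ (φ t - φ 0) / t := fun t ht =>
    csInf_le hLb ⟨t, ht, rfl⟩
  have hRL : sSup Rs ≤ sInf Ls := by
    apply csSup_le hRne
    rintro _ ⟨t, ht, rfl⟩
    apply le_csInf hLne
    rintro _ ⟨s, hs', rfl⟩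
    have ht' : (0:ℝ) < t := ht
    have hs'' : s < 0 := hs'
    exact hs s t hs''.ne ht'.ne' (by linarith)
  rcases eq_or_lt_of_le hRL with heq | hlt
  · left
    refine ⟨sSup Rs, ?_⟩
    rw [hasDerivAt_iff_isLittleO_nhds_zero, Asymptotics.isLittleO_iff]
    intro c hc
    obtain ⟨_, ⟨t1, ht1, rfl⟩, h1⟩ := exists_lt_of_lt_csSup hRne
      (show sSup Rs - c < sSup Rs by linarith)
    obtain ⟨_, ⟨t2, ht2, rfl⟩, h2⟩ := exists_lt_of_csInf_lt hLne
      (show sInf Ls < sInf Ls + c by linarith)
    simp only at h1 h2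
    have ht1' : (0:ℝ) < t1 := ht1
    have ht2' : t2 < (0:ℝ) := ht2
    filter_upwards [Ioo_mem_nhds ht2' ht1'] with t ht
    rw [zero_add, smul_eq_mul, Real.norm_eq_abs, Real.norm_eq_abs]
    rcases lt_trichotomy t 0 with h0 | h0 | h0
    · have h0' : t ≠ 0 := h0.ne
      have h3 := hLt t h0
      have h4 := hs t2 t ht2'.ne h0.ne ht.1.le
      rw [← heq] at h3
      have h5 : |(φ t - φ 0) / t - sSup Rs| ≤ c := by
        rw [abs_le]; constructor <;> linarith
      have h6 : φ t - φ 0 - t * sSup Rs = ((φ t - φ 0) / t - sSup Rs) * t := by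
        field_simp
      rw [h6, abs_mul]
      gcongr
    · rw [h0]; simp
    · have h3 := hRt t h0
      have h4 := hs t t1 h0.ne' ht1'.ne' ht.2.le
      have h5 : |(φ t - φ 0) / t - sSup Rs| ≤ c := by
        rw [abs_le]; constructor <;> linarith
      have h6 : φ t - φ 0 - t * sSup Rs = ((φ t - φ 0) / t - sSup Rs) * t := by
        field_simp
      rw [h6, abs_mul]
      gcongr
  · right
    obtain ⟨p, hp1, hp2⟩ := exists_rat_btwn hlt
    obtain ⟨q, hq1, hq2⟩ := exists_rat_btwn hp2
    refine ⟨p, q, by exact_mod_cast hq1, ?_, ?_⟩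
    · intro t ht
      rcases eq_or_lt_of_le ht with h0 | h0
      · rw [← h0]; simp
      · have h1 := (hRt t h0).trans hp1.le
        rw [div_le_iff₀ h0] at h1
        linarith
    · intro t ht
      rcases eq_or_lt_of_le ht with h0 | h0
      · rw [h0]; simp
      · have h1 := hq2.le.trans (hLt t h0)
        rw [le_div_iff_of_neg h0] at h1
        linarith

section general

variable {X : Type*} [NormedAddCommGroup X] [NormedSpace ℝ X] [FiniteDimensional ℝ X]
  {ι : Type*} [Fintype ι]

theorem concave_line {f : X → ℝ} (hf : ConcaveOn ℝ univ f) (x v : X) :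
    ConcaveOn ℝ univ (fun t : ℝ => f (x + t • v)) := by
  refine ⟨convex_univ, ?_⟩
  intro s _ t _ a b ha hb hab
  have h := hf.2 (mem_univ (x + s • v)) (mem_univ (x + t • v)) ha hb hab
  refine h.trans (le_of_eq ?_)
  simp only
  congr 1
  rw [smul_add, smul_add, smul_smul, smul_smul, smul_eq_mul, smul_eq_mul]
  have : x = a • x + b • x := by rw [← add_smul, hab, one_smul]
  nth_rewrite 3 [this]
  rw [add_smul]
  abel

/-- A concave function with partial derivatives is differentiable. -/
theorem diff_of_coord (b : Module.Basis ι ℝ X) {f : X → ℝ} (hf : ConcaveOn ℝ univ f) {x : X}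
    (h : ∀ i, ∃ d, HasDerivAt (fun t : ℝ => f (x + t • b i)) d 0) : DifferentiableAt ℝ f x := by
  choose d hd using h
  rcases isEmpty_or_nonempty ι with hι | hι
  · have : Subsingleton X := by
      constructor
      intro y z
      apply b.repr.injective
      ext i
      exact (hι.false i).elim
    exact (hasFDerivAt_of_subsingleton f x).differentiableAt
  set ℓ : X →L[ℝ] ℝ := ∑ i, d i • LinearMap.toContinuousLinearMap (b.coord i) with hℓ
  have hℓa : ∀ y, ℓ y = ∑ i, b.coord i y * d i := by
    intro y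
    rw [hℓ]
    simp only [FunLike.coe_sum, Finset.sum_apply, FunLike.coe_smul,
      Pi.smul_apply, LinearMap.coe_toContinuousLinearMap', smul_eq_mul]
    exact Finset.sum_congr rfl (fun i _ => mul_comm _ _)
  -- the sum of the coordinates
  obtain ⟨C, hC0, hC⟩ : ∃ C : ℝ, 0 < C ∧ ∀ y : X, ∑ i, |b.coord i y| ≤ C * ‖y‖ := by
    refine ⟨1 + ∑ i, ‖LinearMap.toContinuousLinearMap (b.coord i)‖, ?_, ?_⟩
    · have : 0 ≤ ∑ i, ‖LinearMap.toContinuousLinearMap (b.coord i)‖ :=
        Finset.sum_nonneg (fun i _ => norm_nonneg _)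
      linarith
    · intro y
      have h1 : ∑ i, |b.coord i y| ≤ ∑ i, ‖LinearMap.toContinuousLinearMap (b.coord i)‖ * ‖y‖ := by
        apply Finset.sum_le_sum
        intro i _
        exact (LinearMap.toContinuousLinearMap (b.coord i)).le_opNorm y
      rw [← Finset.sum_mul] at h1
      nlinarith [norm_nonneg y]
  have hcoord : ∀ i (y : X), |b.coord i y| ≤ C * ‖y‖ := by
    intro i y
    exact (Finset.single_le_sum (f := fun i => |b.coord i y|) (fun i _ => abs_nonneg _)
      (Finset.mem_univ i)).trans (hC y)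
  have hN : (0:ℝ) < Fintype.card ι := Nat.cast_pos.2 Fintype.card_pos
  set N : ℝ := (Fintype.card ι : ℝ) with hNdef
  have key : HasFDerivAt f ℓ x := by
    rw [hasFDerivAt_iff_isLittleO_nhds_zero, Asymptotics.isLittleO_iff]
    intro c hc
    have h1 : ∀ i, ∃ r : ℝ, 0 < r ∧ ∀ t : ℝ, |t| < r →
        |f (x + t • b i) - f x - t * d i| ≤ c / C * |t| := by
      intro i
      have h2 := (hasDerivAt_iff_isLittleO_nhds_zero.1 (hd i)).def (show 0 < c / C by positivity)
      obtain ⟨r, hr, h3⟩ := Metric.eventually_nhds_iff.1 h2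
      refine ⟨r, hr, fun t ht => ?_⟩
      have h4 := h3 (y := t) (by rw [dist_zero_right]; exact ht)
      simp only [zero_add, zero_smul, add_zero, smul_eq_mul, Real.norm_eq_abs] at h4
      exact h4
    choose r hr0 hr using h1
    obtain ⟨ρ, hρ0, hρ⟩ : ∃ ρ : ℝ, 0 < ρ ∧ ∀ i, ρ ≤ r i := by
      refine ⟨Finset.univ.inf' Finset.univ_nonempty r, ?_, fun i => Finset.inf'_le _ (Finset.mem_univ i)⟩
      rw [Finset.lt_inf'_iff]
      exact fun i _ => hr0 i
    -- the lower bound
    have hlow : ∀ y : X, ‖y‖ < ρ / (N * C) → ℓ y - c * ‖y‖ ≤ f (x + y) - f x := by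
      intro y hy
      have hy1 : ∀ i, |N * b.coord i y| < r i := by
        intro i
        rw [abs_mul, abs_of_pos hN]
        calc N * |b.coord i y| ≤ N * (C * ‖y‖) := by gcongr; exact hcoord i y
          _ = N * C * ‖y‖ := by ring
          _ < N * C * (ρ / (N * C)) := by gcongr
          _ = ρ := by field_simp
          _ ≤ r i := hρ i
      have h2 := hf.le_map_sum (t := Finset.univ) (w := fun _ : ι => 1 / N)
        (p := fun i => x + (N * b.coord i y) • b i) (fun i _ => by positivity)
        (by rw [Finset.sum_const, Finset.card_univ, nsmul_eq_mul, ← hNdef]; field_simp)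
        (fun i _ => mem_univ _)
      have h3 : ∑ i, (1 / N) • (x + (N * b.coord i y) • b i) = x + y := by
        have e1 : ∀ i, (1 / N) • (x + (N * b.coord i y) • b i)
            = (1 / N) • x + b.coord i y • b i := by
          intro i
          rw [smul_add, smul_smul]
          congr 2
          field_simp
        simp_rw [e1]
        rw [Finset.sum_add_distrib, Finset.sum_const, Finset.card_univ, ← Nat.cast_smul_eq_nsmul ℝ,
          smul_smul, ← hNdef]
        have e2 : N * (1 / N) = 1 := by field_simp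
        rw [e2, one_smul]
        congr 1
        simp only [Module.Basis.coord_apply]
        exact b.sum_repr y
      rw [h3] at h2
      have h4 : ∑ i, (1 / N) • f (x + (N * b.coord i y) • b i) ≥
          ∑ i, ((1 / N) * f x + b.coord i y * d i - c / C * |b.coord i y|) := by
        apply Finset.sum_le_sum
        intro i _
        have h5 := (abs_le.1 (hr i _ (hy1 i))).1
        rw [abs_mul, abs_of_pos hN] at h5
        have h6 : (1 / N) * (f x + N * b.coord i y * d i - c / C * (N * |b.coord i y|)) ≤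
            (1 / N) * f (x + (N * b.coord i y) • b i) := by
          apply mul_le_mul_of_nonneg_left _ (by positivity)
          linarith
        rw [smul_eq_mul]
        refine le_trans (le_of_eq ?_) h6
        field_simp
      have h7 : ∑ i, ((1 / N) * f x + b.coord i y * d i - c / C * |b.coord i y|)
          = f x + ℓ y - c / C * ∑ i, |b.coord i y| := by
        rw [Finset.sum_sub_distrib, Finset.sum_add_distrib, Finset.sum_const, Finset.card_univ,
          nsmul_eq_mul, ← hNdef, hℓa, Finset.mul_sum]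
        have e2 : N * (1 / N * f x) = f x := by field_simp
        rw [e2]
      rw [h7] at h4
      have h8 : c / C * ∑ i, |b.coord i y| ≤ c * ‖y‖ := by
        calc c / C * ∑ i, |b.coord i y| ≤ c / C * (C * ‖y‖) := by gcongr; exact hC y
          _ = c * ‖y‖ := by field_simp
      linarith
    rw [Metric.eventually_nhds_iff]
    refine ⟨ρ / (N * C), by positivity, ?_⟩
    intro y hy
    rw [dist_zero_right] at hy
    have h1 := hlow y hy
    have h2 := hlow (-y) (by rw [norm_neg]; exact hy)
    rw [norm_neg, map_neg] at h2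
    have hfc := hf.2
    have h3 := hfc (mem_univ (x + y)) (mem_univ (x + -y)) (a := 1 / 2) (b := 1 / 2)
      (by norm_num) (by norm_num) (by norm_num)
    have e1 : (1 / 2 : ℝ) • (x + y) + (1 / 2 : ℝ) • (x + -y) = x := by
      rw [← smul_add]
      have : x + y + (x + -y) = (2:ℝ) • x := by rw [two_smul]; abel
      rw [this, smul_smul]
      norm_num
    rw [e1, smul_eq_mul, smul_eq_mul] at h3
    rw [Real.norm_eq_abs, abs_le]
    constructor <;> linarith
  exact key.differentiableAt

/-- The points with a given jump lie on a Lipschitz graph. -/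
theorem jump_graph (b : Module.Basis ι ℝ X) {f : X → ℝ} {L : ℝ≥0} (hL : LipschitzWith L f)
    (i : ι) {p q : ℝ} (hpq : p < q) :
    ∃ g : X → ℝ, (∃ C : ℝ≥0, LipschitzWith C g) ∧ (∀ (x : X) (t : ℝ), g (x + t • b i) = g x) ∧
      ∀ x : X, (∀ t : ℝ, 0 ≤ t → f (x + t • b i) ≤ f x + p * t) →
        (∀ t : ℝ, t ≤ 0 → f (x + t • b i) ≤ f x + q * t) → b.coord i x = g x := by
  classical
  set S : Set X := {x | (∀ t : ℝ, 0 ≤ t → f (x + t • b i) ≤ f x + p * t) ∧
    ∀ t : ℝ, t ≤ 0 → f (x + t • b i) ≤ f x + q * t} with hS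
  set π : X →L[ℝ] X := ContinuousLinearMap.id ℝ X -
    (LinearMap.toContinuousLinearMap (b.coord i)).smulRight (b i) with hπ
  have hπa : ∀ x, π x = x - b.coord i x • b i := by
    intro x
    rw [hπ]
    simp
  set Λ : ℝ := 2 * L / (q - p) with hΛ
  have hΛ0 : 0 ≤ Λ := div_nonneg (by positivity) (by linarith)
  -- the main estimate
  have hmain : ∀ x ∈ S, ∀ y ∈ S, b.coord i x - b.coord i y ≤ Λ * ‖π x - π y‖ := by
    intro x hx y hy
    rcases le_or_gt (b.coord i x - b.coord i y) 0 with h0 | h0
    · exact h0.trans (mul_nonneg hΛ0 (norm_nonneg _))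
    set t : ℝ := b.coord i x - b.coord i y with ht
    have e1 : x = y + t • b i + (π x - π y) := by
      rw [hπa, hπa, ht, sub_smul]; abel
    have h1 := hy.1 t h0.le
    have h2 := hx.2 (-t) (by linarith)
    have h3 : f x ≤ f (y + t • b i) + L * ‖π x - π y‖ := by
      have h4 := hL.dist_le_mul x (y + t • b i)
      have e2 : dist x (y + t • b i) = ‖π x - π y‖ := by
        rw [dist_eq_norm]
        congr 1
        nth_rewrite 1 [e1]
        abel
      rw [e2, Real.dist_eq] at h4
      linarith [(abs_le.1 h4).2]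
    have h5 : f y ≤ f (x + (-t) • b i) + L * ‖π x - π y‖ := by
      have h4 := hL.dist_le_mul y (x + (-t) • b i)
      have e2 : dist y (x + (-t) • b i) = ‖π x - π y‖ := by
        rw [dist_eq_norm, ← norm_neg]
        congr 1
        nth_rewrite 1 [e1]
        rw [neg_smul]
        abel
      rw [e2, Real.dist_eq] at h4
      linarith [(abs_le.1 h4).2]
    have h6 : (q - p) * t ≤ 2 * L * ‖π x - π y‖ := by linarith
    rw [hΛ, div_mul_eq_mul_div, le_div_iff₀ (by linarith)]
    linarith
  have hmain' : ∀ x ∈ S, ∀ y ∈ S, |b.coord i x - b.coord i y| ≤ Λ * ‖π x - π y‖ := by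
    intro x hx y hy
    rw [abs_le]
    constructor
    · have := hmain y hy x hx
      rw [norm_sub_rev] at this
      linarith
    · exact hmain x hx y hy
  -- the function on the projection
  set G : X → ℝ := fun z => if h : ∃ x ∈ S, π x = z then b.coord i h.choose else 0 with hG
  have hGx : ∀ x ∈ S, G (π x) = b.coord i x := by
    intro x hx
    have hex : ∃ x' ∈ S, π x' = π x := ⟨x, hx, rfl⟩
    rw [hG]
    simp only
    rw [dif_pos hex]
    have h1 := hmain' _ hex.choose_spec.1 x hx
    rw [hex.choose_spec.2, sub_self, norm_zero, mul_zero] at h1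
    have h2 := abs_nonneg (b.coord i hex.choose - b.coord i x)
    have h3 := abs_eq_zero.1 (le_antisymm h1 h2)
    linarith
  have hGL : LipschitzOnWith (Real.toNNReal Λ) G (π '' S) := by
    apply LipschitzOnWith.of_dist_le_mul
    rintro _ ⟨x, hx, rfl⟩ _ ⟨y, hy, rfl⟩
    rw [hGx x hx, hGx y hy, Real.dist_eq, dist_eq_norm, Real.coe_toNNReal _ hΛ0]
    exact hmain' x hx y hy
  obtain ⟨G', hG'L, hG'⟩ := hGL.extend_real
  refine ⟨fun x => G' (π x), ⟨_, hG'L.comp π.lipschitz⟩, ?_, ?_⟩
  · intro x t
    have : π (x + t • b i) = π x := by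
      rw [hπa, hπa, map_add, map_smul]
      simp only [Module.Basis.coord_apply, Module.Basis.repr_self, Finsupp.single_eq_same,
        smul_eq_mul, mul_one, add_smul]
      abel
    simp only
    rw [this]
  · intro x h1 h2
    have hx : x ∈ S := ⟨h1, h2⟩
    simp only
    rw [← hG' ⟨x, hx, rfl⟩, hGx x hx]

/-- **The set of the points where a concave Lipschitz function is not differentiable.** -/
theorem nondiff_graphs [Nonempty ι] (b : Module.Basis ι ℝ X) {f : X → ℝ}
    (hf : ConcaveOn ℝ univ f) {L : ℝ≥0} (hL : LipschitzWith L f) :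
    ∃ (i : ℕ → ι) (g : ℕ → X → ℝ), (∀ m, ∃ C : ℝ≥0, LipschitzWith C (g m)) ∧
      (∀ (m : ℕ) (x : X) (t : ℝ), g m (x + t • b (i m)) = g m x) ∧
      ∀ x : X, ¬ DifferentiableAt ℝ f x → ∃ m, b.coord (i m) x = g m x := by
  classical
  have hj : ∀ (j : ι × ℚ × ℚ), ∃ g : X → ℝ, (∃ C : ℝ≥0, LipschitzWith C g) ∧
      (∀ (x : X) (t : ℝ), g (x + t • b j.1) = g x) ∧
      (j.2.1 < j.2.2 → ∀ x : X, (∀ t : ℝ, 0 ≤ t → f (x + t • b j.1) ≤ f x + j.2.1 * t) →
        (∀ t : ℝ, t ≤ 0 → f (x + t • b j.1) ≤ f x + j.2.2 * t) → b.coord j.1 x = g x) := by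
    rintro ⟨i, p, q⟩
    by_cases hpq : p < q
    · obtain ⟨g, hg1, hg2, hg3⟩ := jump_graph b hL i (p := p) (q := q) (by exact_mod_cast hpq)
      exact ⟨g, hg1, hg2, fun _ => hg3⟩
    · exact ⟨fun _ => 0, ⟨0, LipschitzWith.const 0⟩, fun _ _ => rfl, fun h => absurd h hpq⟩
  choose g hg1 hg2 hg3 using hj
  obtain ⟨e, he⟩ := exists_surjective_nat (ι × ℚ × ℚ)
  refine ⟨fun m => (e m).1, fun m => g (e m), fun m => hg1 _, fun m => hg2 _, ?_⟩
  intro x hx
  have h1 : ∃ i, ¬ ∃ d, HasDerivAt (fun t : ℝ => f (x + t • b i)) d 0 := by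
    by_contra h
    push Not at h
    exact hx (diff_of_coord b hf h)
  obtain ⟨i, hi⟩ := h1
  rcases deriv_or_jump (concave_line hf x (b i)) (L := L * ‖b i‖) (by
      intro t
      have h2 := hL.dist_le_mul (x + t • b i) (x + (0:ℝ) • b i)
      rw [Real.dist_eq, dist_eq_norm, add_sub_add_left_eq_sub, ← sub_smul, sub_zero, norm_smul,
        Real.norm_eq_abs] at h2
      linarith) with h2 | ⟨p, q, hpq, h3, h4⟩
  · exact absurd h2 hi
  · obtain ⟨m, hm⟩ := he (i, p, q)
    refine ⟨m, ?_⟩
    have h5 := hg3 (e m)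
    show b.coord (e m).1 x = g (e m) x
    rw [hm] at h5 ⊢
    simp only [zero_smul, add_zero] at h3 h4
    exact h5 hpq x h3 h4

/-- **Its Hausdorff dimension.** -/
theorem dimH_graphs (b : Module.Basis ι ℝ X) {i : ℕ → ι} {g : ℕ → X → ℝ}
    (hg : ∀ m, ∃ C : ℝ≥0, LipschitzWith C (g m)) (hgt : ∀ (m : ℕ) (x : X) (t : ℝ),
      g m (x + t • b (i m)) = g m x) {E : Set X}
    (hE : ∀ x ∈ E, ∃ m, b.coord (i m) x = g m x) :
    dimH E ≤ (Fintype.card ι - 1 : ℕ) := by
  have hsub : E ⊆ ⋃ m, {x | b.coord (i m) x = g m x} := by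
    intro x hx
    obtain ⟨m, hm⟩ := hE x hx
    exact mem_iUnion.2 ⟨m, hm⟩
  refine (dimH_mono hsub).trans ?_
  rw [dimH_iUnion]
  apply iSup_le
  intro m
  obtain ⟨C, hC⟩ := hg m
  set H : Submodule ℝ X := LinearMap.ker (b.coord (i m)) with hH
  set F : H → X := fun y => (y : X) + g m y • b (i m) with hF
  have hFL : LipschitzWith (1 + C * ‖b (i m)‖₊) F := by
    apply LipschitzWith.add
    · exact LipschitzWith.subtype_val _
    · have h1 : LipschitzWith C (fun y : H => g m y) := by
        have := hC.comp (LipschitzWith.subtype_val (H : Set X))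
        rw [mul_one] at this
        exact this
      have h2 : LipschitzWith ‖b (i m)‖₊ (fun t : ℝ => t • b (i m)) := by
        apply LipschitzWith.of_dist_le_mul
        intro s t
        rw [dist_eq_norm, ← sub_smul, norm_smul, Real.dist_eq, Real.norm_eq_abs, mul_comm]
        rfl
      have h3 := h2.comp h1
      rw [mul_comm] at h3
      exact h3
  have himg : {x | b.coord (i m) x = g m x} ⊆ F '' univ := by
    intro x hx
    have hx' : b.coord (i m) x = g m x := hx
    set y : X := x - b.coord (i m) x • b (i m) with hy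
    have hyH : y ∈ H := by
      rw [hH, LinearMap.mem_ker, hy, map_sub, map_smul]
      simp
    refine ⟨⟨y, hyH⟩, mem_univ _, ?_⟩
    rw [hF]
    simp only
    have h1 : g m y = g m x := by
      have := hgt m y (b.coord (i m) x)
      rw [← this]
      congr 1
      rw [hy]; abel
    rw [h1, ← hx', hy]
    abel
  refine (dimH_mono himg).trans ((hFL.dimH_image_le univ).trans ?_)
  rw [Real.dimH_univ_eq_finrank]
  have h1 : Module.finrank ℝ H + 1 ≤ Fintype.card ι := by
    have h2 : Module.finrank ℝ X = Fintype.card ι := Module.finrank_eq_card_basis b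
    have h3 : H ≠ ⊤ := by
      intro h
      have h4 : b (i m) ∈ H := by rw [h]; trivial
      rw [hH, LinearMap.mem_ker] at h4
      simp at h4
    have h4 := Submodule.finrank_lt h3
    omega
  exact_mod_cast (by omega : Module.finrank ℝ H ≤ Fintype.card ι - 1)

end general

end Pool.Agent.Helper37.Pe
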