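import Mathlib
import Pool.Graph.R_seed8.Y665.PE.F1
import Pool.Agent.Helper37.Pe.Graph

set_option autoImplicit false
set_option linter.unusedSectionVars false

/-!
Finite dimensional families of interactions: the ground state energy per site as a function of the
parameters.
-/

open Set Filter Topology Metric
open scoped NNReal BigOperators
open Pool.Agent.H4R2 Pool.Agent.Y665.PE

namespace Pool.Agent.Helper37.Pe

section

variable {n : Type*} [Fintype n] [DecidableEq n] {ι : Type*} [Fintype ι]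

/-- the least energy over `K` as a function of the parameters -/
noncomputable def fam (K : Set (Matrix n n ℂ)) (x₀ : n → n → ℝ) (T : (ι → ℝ) →ₗ[ℝ] (n → n → ℝ))
    (s : ι → ℝ) : ℝ := low K (x₀ + T s)

theorem fam_concave {K : Set (Matrix n n ℂ)} (hK : ∀ ρ ∈ K, ∀ a b, ‖ρ a b‖ ≤ 2)
    (hne : K.Nonempty) (x₀ : n → n → ℝ) (T : (ι → ℝ) →ₗ[ℝ] (n → n → ℝ)) :
    ConcaveOn ℝ univ (fam K x₀ T) := by
  refine ⟨convex_univ, ?_⟩
  intro s _ t _ a b ha hb hab
  unfold fam
  conv_rhs => unfold low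
  apply le_csInf (hne.image _)
  rintro _ ⟨ρ, hρ, rfl⟩
  have e1 : x₀ + T (a • s + b • t) = a • (x₀ + T s) + b • (x₀ + T t) := by
    rw [map_add, map_smul, map_smul, smul_add, smul_add]
    have : x₀ = a • x₀ + b • x₀ := by rw [← add_smul, hab, one_smul]
    nth_rewrite 1 [this]
    abel
  simp only
  rw [e1, map_add, map_smul, map_smul]
  have h1 := low_le hK (x₀ + T s) hρ
  have h2 := low_le hK (x₀ + T t) hρ
  simp only [smul_eq_mul]
  nlinarith [mul_le_mul_of_nonneg_left h1 ha, mul_le_mul_of_nonneg_left h2 hb]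

theorem lin_bound (T : (ι → ℝ) →ₗ[ℝ] (n → n → ℝ)) :
    ∃ M : ℝ, 0 ≤ M ∧ ∀ s, ‖T s‖ ≤ M * ‖s‖ :=
  ⟨‖LinearMap.toContinuousLinearMap T‖, norm_nonneg _, fun s =>
    (LinearMap.toContinuousLinearMap T).le_opNorm s⟩

theorem fam_lipschitz {K : Set (Matrix n n ℂ)} (hK : ∀ ρ ∈ K, ∀ a b, ‖ρ a b‖ ≤ 2)
    (hne : K.Nonempty) (x₀ : n → n → ℝ) (T : (ι → ℝ) →ₗ[ℝ] (n → n → ℝ)) :
    ∃ C : ℝ≥0, LipschitzWith C (fam K x₀ T) := by
  refine ⟨_, (low_lipschitz hK hne).comp
    (g := fun s => x₀ + T s) (Kg := ‖LinearMap.toContinuousLinearMap T‖₊) ?_⟩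
  apply LipschitzWith.of_dist_le_mul
  intro s t
  rw [dist_add_left]
  exact (LinearMap.toContinuousLinearMap T).lipschitz.dist_le_mul s t

/-- the basic estimate near a point of differentiability -/
theorem fam_est {K : Set (Matrix n n ℂ)} (hK : ∀ ρ ∈ K, ∀ a b, ‖ρ a b‖ ≤ 2)
    (hne : K.Nonempty) (x₀ : n → n → ℝ) (T : (ι → ℝ) →ₗ[ℝ] (n → n → ℝ)) {s : ι → ℝ}
    (hd : DifferentiableAt ℝ (fam K x₀ T) s) (η : ℝ) (hη : 0 < η) :
    ∃ δ : ℝ, 0 < δ ∧ ∀ s' : ι → ℝ, ‖s' - s‖ ≤ δ → ∀ σ : Matrix n n ℂ,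
      (∀ a b, ‖σ a b‖ ≤ 2) → (∃ τ ∈ K, ∀ a b, ‖σ a b - τ a b‖ ≤ δ) →
      lin σ (x₀ + T s') ≤ low K (x₀ + T s') + δ →
      ∀ v : ι → ℝ, |lin σ (T v) - fderiv ℝ (fam K x₀ T) s v| ≤ η * ‖v‖ := by
  set D := fderiv ℝ (fam K x₀ T) s with hD
  set C : ℝ := (Fintype.card n : ℝ) ^ 2 * 8 with hC
  have hC0 : 0 ≤ C := by rw [hC]; positivity
  obtain ⟨M, hM0, hM⟩ := lin_bound T
  have ho2 := hd.hasFDerivAt.isLittleO.def (show (0 : ℝ) < η / 4 by positivity)
  obtain ⟨r₀, hr₀, hball⟩ := Metric.eventually_nhds_iff.mp ho2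
  set r := r₀ / 2 with hr
  have hr0 : 0 < r := by positivity
  set S : ℝ := C * (‖x₀‖ + M * (‖s‖ + r)) + 1 + 2 * (C * M) with hS
  have hS0 : 0 < S := by rw [hS]; positivity
  set δ := η * r / (2 * S) with hδ
  have hδ0 : 0 < δ := by positivity
  have hSδ : S * δ = η * r / 2 := by rw [hδ]; field_simp
  refine ⟨δ, hδ0, ?_⟩
  intro s' hs' σ hσ2 ⟨τ, hτ, hστ⟩ hσy
  have hTs : ‖T (s' - s)‖ ≤ M * δ :=
    (hM _).trans (mul_le_mul_of_nonneg_left hs' hM0)
  have hlip : low K (x₀ + T s') ≤ low K (x₀ + T s) + C * (M * δ) := by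
    have h1 := (low_lipschitz hK hne).dist_le_mul (x₀ + T s') (x₀ + T s)
    rw [Real.coe_toNNReal _ hC0, Real.dist_eq, dist_add_left, dist_eq_norm, ← map_sub] at h1
    have h2 := mul_le_mul_of_nonneg_left hTs hC0
    linarith [(abs_le.mp h1).2]
  have hsig : ∀ v : n → n → ℝ, |lin σ v| ≤ C * ‖v‖ := fun v => abs_lin_le σ hσ2 v
  have hclose : ∀ v : n → n → ℝ, lin τ v - C * δ * ‖v‖ ≤ lin σ v := by
    intro v
    have h1 := pair_norm_le (herm v) σ τ δ hστ
    have h2 : |lin σ v - lin τ v| ≤ size (herm v) * δ := by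
      rw [lin_apply, lin_apply, ← Complex.sub_re]
      exact (Complex.abs_re_le_norm _).trans h1
    have h3 : size (herm v) ≤ C * ‖v‖ := by
      unfold size
      calc ∑ a, ∑ b, ‖herm v a b‖ ≤ ∑ _a : n, ∑ _b : n, (4 * ‖v‖) := by
            refine Finset.sum_le_sum fun a _ => Finset.sum_le_sum fun b _ => norm_herm_le v a b
        _ = (Fintype.card n : ℝ) ^ 2 * 4 * ‖v‖ := by
            simp only [Finset.sum_const, Finset.card_univ, nsmul_eq_mul]
            ring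
        _ ≤ C * ‖v‖ := by
            rw [hC]
            have : 0 ≤ (Fintype.card n : ℝ) ^ 2 * ‖v‖ := by positivity
            nlinarith
    have h4 := (abs_le.mp h2).1
    nlinarith [mul_le_mul_of_nonneg_right h3 hδ0.le]
  -- one sided estimate on the sphere
  have key : ∀ v : ι → ℝ, ‖v‖ = r → -(η * r) ≤ lin σ (T v) - D v := by
    intro v hv
    have h1 : ‖fam K x₀ T (s + v) - fam K x₀ T s - D (s + v - s)‖ ≤ η / 4 * ‖s + v - s‖ := by
      apply hball
      rw [dist_eq_norm, add_sub_cancel_left, hv, hr]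
      linarith
    rw [add_sub_cancel_left, hv, Real.norm_eq_abs] at h1
    have h2 := (abs_le.mp h1).1
    unfold fam at h2
    have h3 := low_le hK (x₀ + T (s + v)) hτ
    have h4 := hclose (x₀ + T (s + v))
    have h5 : ‖x₀ + T (s + v)‖ ≤ ‖x₀‖ + M * (‖s‖ + r) := by
      refine (norm_add_le _ _).trans ?_
      have h51 : ‖s + v‖ ≤ ‖s‖ + r := (norm_add_le _ _).trans (by rw [hv])
      have h52 := (hM (s + v)).trans (mul_le_mul_of_nonneg_left h51 hM0)
      linarith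
    have h6 : C * δ * ‖x₀ + T (s + v)‖ ≤ C * δ * (‖x₀‖ + M * (‖s‖ + r)) :=
      mul_le_mul_of_nonneg_left h5 (mul_nonneg hC0 hδ0.le)
    have h7 : lin σ (x₀ + T (s + v)) = lin σ (x₀ + T s') + lin σ (T (s - s')) + lin σ (T v) := by
      rw [← map_add, ← map_add]
      congr 1
      rw [map_add, map_sub]
      abel
    have h8 := (abs_le.mp (hsig (T (s - s')))).2
    have h81 : ‖T (s - s')‖ ≤ M * δ := by
      rw [← neg_sub, map_neg, norm_neg]; exact hTs
    have h82 := mul_le_mul_of_nonneg_left h81 hC0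
    have h10 : S * δ = C * δ * (‖x₀‖ + M * (‖s‖ + r)) + δ + 2 * (C * (M * δ)) := by rw [hS]; ring
    rw [hSδ] at h10
    nlinarith
  intro v
  rcases (norm_nonneg v).eq_or_lt with h0 | h0
  · have hv : v = 0 := norm_eq_zero.mp h0.symm
    rw [hv]
    simp
  · set c := r / ‖v‖ with hc
    have hc0 : 0 < c := by positivity
    have hcv : ‖c • v‖ = r := by
      rw [norm_smul, Real.norm_of_nonneg hc0.le, hc]
      field_simp
    have h1 := key (c • v) hcv
    have h2 := key (-(c • v)) (by rw [norm_neg, hcv])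
    have e1 : lin σ (T (c • v)) = c * lin σ (T v) := by rw [map_smul, map_smul]; rfl
    have e2 : D (c • v) = c * D v := by rw [map_smul]; rfl
    have e3 : lin σ (T (-(c • v))) = -(c * lin σ (T v)) := by rw [map_neg, map_neg, e1]
    have e4 : D (-(c • v)) = -(c * D v) := by rw [map_neg, e2]
    rw [e1, e2] at h1
    rw [e3, e4] at h2
    have e5 : η * r = c * (η * ‖v‖) := by rw [hc]; field_simp
    rw [e5] at h1 h2
    rw [abs_le]
    constructor
    · apply le_of_mul_le_mul_left _ hc0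
      linarith
    · apply le_of_mul_le_mul_left _ hc0
      linarith

/-- If the parameters are all interactions then a point of differentiability of `fam` is a point
of differentiability of `low`. -/
theorem low_diff_of_fam {K : Set (Matrix n n ℂ)} (x₀ : n → n → ℝ)
    (T : (ι → ℝ) →ₗ[ℝ] (n → n → ℝ)) (hT : Function.Surjective T) {s : ι → ℝ}
    (hd : DifferentiableAt ℝ (fam K x₀ T) s) : DifferentiableAt ℝ (low K) (x₀ + T s) := by
  obtain ⟨S, hS⟩ := T.exists_rightInverse_of_surjective (LinearMap.range_eq_top.2 hT)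
  have hS' : ∀ y, T (S y) = y := fun y => by
    have := congrArg (fun f => f y) hS
    simpa using this
  set x := x₀ + T s with hx
  have h1 : low K = fun y => fam K x₀ T (s + LinearMap.toContinuousLinearMap S (y - x)) := by
    funext y
    unfold fam
    congr 1
    rw [map_add, LinearMap.coe_toContinuousLinearMap', hS', hx]
    abel
  rw [h1]
  have h2 : DifferentiableAt ℝ (fun y => s + LinearMap.toContinuousLinearMap S (y - x)) x := by
    fun_prop
  have h3 : s + LinearMap.toContinuousLinearMap S (x - x) = s := by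
    rw [sub_self, map_zero, add_zero]
  have h4 : DifferentiableAt ℝ (fam K x₀ T) (s + LinearMap.toContinuousLinearMap S (x - x)) := by
    rw [h3]; exact hd
  exact DifferentiableAt.comp (g := fam K x₀ T)
    (f := fun y => s + LinearMap.toContinuousLinearMap S (y - x)) x h4 h2

end

section torus

variable {d : ℕ} {ι : Type*} [Fintype ι]

/-- uniform convergence of the expectation values near a point of differentiability -/
theorem fam_unif (hd : 2 ≤ d) (R : Finset (ℤ × ℤ)) (x₀ : (R → Fin d) → (R → Fin d) → ℝ)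
    (T : (ι → ℝ) →ₗ[ℝ] ((R → Fin d) → (R → Fin d) → ℝ)) {s : ι → ℝ}
    (hs : DifferentiableAt ℝ (fam (limStates d R) x₀ T) s) (η : ℝ) (hη : 0 < η) :
    ∃ ρ ∈ limStates d R, ∃ δ : ℝ, 0 < δ ∧ ∃ L₀ : ℕ, ∀ (L : ℕ) [NeZero L], L₀ ≤ L →
      ∀ s', ‖s' - s‖ ≤ δ → ∀ ψ : (Site L → Fin d) → ℂ, normSq ψ = 1 → TransInv ψ →
        IsGround (ham R (herm (x₀ + T s')) L) ψ →
          ∀ v, |lin (redState R ψ) (T v) - lin ρ (T v)| ≤ η * ‖v‖ := by
  have hKb := limStates_bound (d := d) R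
  have hKn := limStates_nonempty hd R
  obtain ⟨δ, hδ, hest⟩ := fam_est hKb hKn x₀ T hs (η / 2) (by positivity)
  obtain ⟨M, hM0, hM⟩ := lin_bound T
  -- a reference state
  obtain ⟨_, ⟨ρ, hρ, rfl⟩, hρ2⟩ := exists_lt_of_csInf_lt (hKn.image (fun ρ => lin ρ (x₀ + T s)))
    (show sInf ((fun ρ => lin ρ (x₀ + T s)) '' (limStates d R)) <
      low (limStates d R) (x₀ + T s) + δ by
      unfold low; linarith)
  have hρ3 := hest s (by simp [hδ.le]) ρ (hKb ρ hρ) ⟨ρ, hρ, fun a b => by simp [hδ.le]⟩ hρ2.le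
  obtain ⟨L₁, hL₁⟩ := unif hd R δ hδ
  obtain ⟨L₂, hL₂⟩ := ground_low hd R (x₀ + T s) δ hδ
  refine ⟨ρ, hρ, min δ (1 / (M + 1)), lt_min hδ (by positivity), max L₁ L₂, ?_⟩
  intro L _ hL s' hs' ψ h1 h2 h3 v
  have h0 : ‖x₀ + T s' - (x₀ + T s)‖ ≤ 1 := by
    rw [add_sub_add_left_eq_sub, ← map_sub]
    refine (hM _).trans ?_
    have h01 := hs'.trans (min_le_right _ _)
    calc M * ‖s' - s‖ ≤ M * (1 / (M + 1)) := mul_le_mul_of_nonneg_left h01 hM0
      _ ≤ 1 := by
        rw [mul_one_div, div_le_one (by positivity)]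
        linarith
  have h4 := hL₂ L ((le_max_right _ _).trans hL) (x₀ + T s') h0 ψ h1 h2 h3
  have h5 := hest s' (hs'.trans (min_le_left _ _)) (redState R ψ)
    (fun a b => (redState_bound R ψ h1 a b).trans (by norm_num))
    ((hL₁ L ((le_max_left _ _).trans hL)).2 ψ h1 h2) h4 v
  have e2 := abs_le.mp (hρ3 v)
  have e1 := abs_le.mp h5
  rw [abs_le]
  constructor <;> linarith [e1.1, e1.2, e2.1, e2.2]

/-- one tensor reproduces the expectation values -/
theorem fam_tensor (hd : 2 ≤ d) (R : Finset (ℤ × ℤ)) (x₀ : (R → Fin d) → (R → Fin d) → ℝ)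
    (T : (ι → ℝ) →ₗ[ℝ] ((R → Fin d) → (R → Fin d) → ℝ)) {s : ι → ℝ}
    (hs : DifferentiableAt ℝ (fam (limStates d R) x₀ T) s) (ε : ℝ) (hε : 0 < ε) :
    ∃ A : Tensor d (bondDim d R ε), ∃ δ : ℝ, 0 < δ ∧ ∃ L₀ : ℕ, ∀ (L : ℕ) [NeZero L], L₀ ≤ L →
      contract A L ≠ 0 ∧ ∀ s', ‖s' - s‖ ≤ δ → ∀ ψ : (Site L → Fin d) → ℂ,
        TIGround (ham R (herm (x₀ + T s')) L) ψ → ∀ v : ι → ℝ, ‖v‖ ≤ 1 →
          (∀ a b, ‖herm (T v) a b‖ ≤ 1) →
          |lin (redState R ψ) (T v) - lin (redState R (contract A L)) (T v)| ≤ ε := by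
  obtain ⟨ρ, hρ, δ, hδ, L₀, hL₀⟩ := fam_unif hd R x₀ T hs (ε / 4) (by positivity)
  obtain ⟨L₁, hL₁⟩ := entry_approx d hd R ε hε
  have hdp : (0 : ℝ) < (d : ℝ) ^ R.card := by
    have : (0 : ℝ) < d := by exact_mod_cast (by omega : 0 < d)
    positivity
  obtain ⟨L₃, hL₃⟩ := hρ (ε / (4 * ((d : ℝ) ^ R.card) ^ 2)) (by positivity)
  set K := max L₁ L₃ + 1 with hK
  have : NeZero K := ⟨by omega⟩
  obtain ⟨φ, h1, h2, h3⟩ := hL₃ K (by omega)
  obtain ⟨A, hA⟩ := hL₁ K (by omega) φ h1 h2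
  refine ⟨A, δ, hδ, max L₀ L₁, fun L _ hL => ?_⟩
  obtain ⟨h4, h5⟩ := hA L (by omega)
  refine ⟨?_, fun s' hs' ψ hψ v hv hv2 => ?_⟩
  · intro h0
    rw [h0] at h4
    simp [normSq] at h4
  · have h6 := hL₀ L (by omega) s' hs' ψ hψ.1 hψ.2.1 (hψ.isGround (herm_isHermitian _)) v
    have h7 : ∀ a b, ‖ρ a b - redState R (contract A L) a b‖ ≤
        3 * ε / (4 * ((d : ℝ) ^ R.card) ^ 2) := by
      intro a b
      have e1 : ρ a b - redState R (contract A L) a b = -(redState R φ a b - ρ a b) -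
        (redState R (contract A L) a b - redState R φ a b) := by ring
      rw [e1]
      refine (norm_sub_le _ _).trans ?_
      rw [norm_neg]
      have e2 : 3 * ε / (4 * ((d : ℝ) ^ R.card) ^ 2) =
          ε / (4 * ((d : ℝ) ^ R.card) ^ 2) + ε / (2 * ((d : ℝ) ^ R.card) ^ 2) := by
        field_simp
        ring
      rw [e2]
      exact add_le_add (h3 a b) (h5 a b)
    have h8 := pair_le (herm (T v)) _ _ _ h7
    have h9 : (∑ a, ∑ b, ‖herm (T v) a b‖) ≤ ((d : ℝ) ^ R.card) ^ 2 := by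
      calc ∑ a, ∑ b, ‖herm (T v) a b‖ ≤ ∑ _a : (R → Fin d), ∑ _b : (R → Fin d), (1 : ℝ) :=
            Finset.sum_le_sum fun a _ => Finset.sum_le_sum fun b _ => hv2 a b
        _ = ((d : ℝ) ^ R.card) ^ 2 := by
            simp only [Finset.sum_const, Finset.card_univ, nsmul_eq_mul, mul_one]
            rw [Fintype.card_fun, Fintype.card_fin, Fintype.card_coe]
            push_cast
            ring
    have h10 : (∑ a, ∑ b, ‖herm (T v) a b‖) * (3 * ε / (4 * ((d : ℝ) ^ R.card) ^ 2)) ≤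
        3 * ε / 4 := by
      refine (mul_le_mul_of_nonneg_right h9 (by positivity)).trans (le_of_eq ?_)
      field_simp
    have h11 : ε / 4 * ‖v‖ ≤ ε / 4 := by nlinarith
    simp only [lin_apply] at h6 ⊢
    have e1 := abs_le.mp h6
    have e2 := abs_le.mp (h8.trans h10)
    rw [abs_le]
    constructor <;> linarith [e1.1, e1.2, e2.1, e2.2]

end torus

end Pool.Agent.Helper37.Pe
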