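import Mathlib
import Pool.Agent.Helper37.Pe.Family

set_option autoImplicit false
set_option linter.unusedSectionVars false

/-!
The points where a function has many affinely independent supergradients, and the phase rule.
-/

open Set Filter Topology Metric
open scoped NNReal BigOperators
open Pool.Agent.H4R2 Pool.Agent.Y665.PE

namespace Pool.Agent.Helper37.Pe

section

variable {ι : Type} [Fintype ι]

/-- `p` is a supergradient of `f` at `x`. -/
def SuperGrad (f : (ι → ℝ) → ℝ) (x p : ι → ℝ) : Prop :=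
  ∀ y, f y ≤ f x + ∑ i, p i * (y i - x i)

/-- the monotonicity inequality -/
theorem superGrad_mono {f : (ι → ℝ) → ℝ} {x y p q : ι → ℝ} (hp : SuperGrad f x p)
    (hq : SuperGrad f y q) :
    ∑ i, (x i - y i) ^ 2 ≤ ∑ i, ((x i - p i) - (y i - q i)) ^ 2 := by
  have h1 := hp y
  have h2 := hq x
  have h3 : 0 ≤ ∑ i, (p i * (y i - x i) + q i * (x i - y i)) := by
    rw [Finset.sum_add_distrib]
    linarith
  have h4 : ∑ i, ((x i - p i) - (y i - q i)) ^ 2 = ∑ i, (x i - y i) ^ 2 +
      2 * ∑ i, (p i * (y i - x i) + q i * (x i - y i)) + ∑ i, (p i - q i) ^ 2 := by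
    rw [Finset.mul_sum, ← Finset.sum_add_distrib, ← Finset.sum_add_distrib]
    refine Finset.sum_congr rfl fun i _ => ?_
    ring
  have h5 : 0 ≤ ∑ i, (p i - q i) ^ 2 := Finset.sum_nonneg fun i _ => sq_nonneg _
  linarith

theorem superGrad_convex {f : (ι → ℝ) → ℝ} {x : ι → ℝ} {κ : Type*} [Fintype κ]
    {p : κ → ι → ℝ} (hp : ∀ l, SuperGrad f x (p l)) {w : κ → ℝ} (hw : ∀ l, 0 ≤ w l)
    (hw1 : ∑ l, w l = 1) : SuperGrad f x (fun i => ∑ l, w l * p l i) := by
  intro y
  have h1 : ∑ l, w l * f y ≤ ∑ l, w l * (f x + ∑ i, p l i * (y i - x i)) :=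
    Finset.sum_le_sum fun l _ => mul_le_mul_of_nonneg_left (hp l y) (hw l)
  rw [← Finset.sum_mul, hw1, one_mul] at h1
  refine h1.trans (le_of_eq ?_)
  simp_rw [mul_add]
  rw [Finset.sum_add_distrib, ← Finset.sum_mul, hw1, one_mul]
  congr 1
  simp_rw [Finset.mul_sum, Finset.sum_mul]
  rw [Finset.sum_comm]
  refine Finset.sum_congr rfl fun i _ => Finset.sum_congr rfl fun l _ => ?_
  ring

/-- a slice of the inverse of the resolvent -/
def slice (f : (ι → ℝ) → ℝ) (I : Finset ι) (q : ι → ℚ) : Set (ι → ℝ) :=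
  {x | ∃ p, SuperGrad f x p ∧ ∀ i ∈ I, x i - p i = q i}

theorem dimH_slice [DecidableEq ι] (f : (ι → ℝ) → ℝ) (I : Finset ι) (q : ι → ℚ) :
    dimH (slice f I q) ≤ (Fintype.card ι - I.card : ℕ) := by
  classical
  set J := {i : ι // i ∉ I} with hJ
  set P : (J → ℝ) → (ι → ℝ) → Prop := fun w x => ∃ p, SuperGrad f x p ∧
    (∀ i ∈ I, x i - p i = q i) ∧ ∀ i : J, x i - p i = w i with hP
  set W : Set (J → ℝ) := {w | ∃ x, P w x} with hW
  set Φ : (J → ℝ) → (ι → ℝ) := fun w => if h : ∃ x, P w x then h.choose else 0 with hΦ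
  have hΦP : ∀ w ∈ W, P w (Φ w) := by
    intro w hw
    have : ∃ x, P w x := hw
    rw [hΦ]
    simp only
    rw [dif_pos this]
    exact this.choose_spec
  have hkey : ∀ w w' x x', P w x → P w' x' → ∑ i, (x i - x' i) ^ 2 ≤ ∑ i, (w i - w' i) ^ 2 := by
    rintro w w' x x' ⟨p, h1, h2, h3⟩ ⟨p', h1', h2', h3'⟩
    refine (superGrad_mono h1 h1').trans ?_
    rw [← Finset.sum_add_sum_compl I]
    have e1 : ∑ i ∈ I, (x i - p i - (x' i - p' i)) ^ 2 = 0 := by
      apply Finset.sum_eq_zero
      intro i hi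
      rw [h2 i hi, h2' i hi, sub_self]
      norm_num
    rw [e1, zero_add]
    have e2 : ∑ i ∈ Iᶜ, (x i - p i - (x' i - p' i)) ^ 2 =
        ∑ i : J, (x i - p i - (x' i - p' i)) ^ 2 := by
      rw [← Finset.sum_coe_sort]
      apply Fintype.sum_equiv (Equiv.subtypeEquivRight (fun i => by simp))
      intro i
      rfl
    rw [e2]
    apply le_of_eq
    refine Finset.sum_congr rfl fun i _ => ?_
    rw [h3, h3']
  have hLip : LipschitzOnWith (Fintype.card J : ℝ≥0) Φ W := by
    apply LipschitzOnWith.of_dist_le_mul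
    intro w hw w' hw'
    have h1 := hkey w w' _ _ (hΦP w hw) (hΦP w' hw')
    have h2 : ∑ i : J, (w i - w' i) ^ 2 ≤ (Fintype.card J : ℝ) * dist w w' ^ 2 := by
      calc ∑ i : J, (w i - w' i) ^ 2 ≤ ∑ _i : J, dist w w' ^ 2 := by
            refine Finset.sum_le_sum fun i _ => ?_
            have := dist_le_pi_dist w w' i
            rw [Real.dist_eq] at this
            rw [← sq_abs]
            gcongr
        _ = _ := by rw [Finset.sum_const, Finset.card_univ, nsmul_eq_mul]
    have h3 : (Fintype.card J : ℝ) * dist w w' ^ 2 ≤ ((Fintype.card J : ℝ) * dist w w') ^ 2 := by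
      rw [mul_pow]
      apply mul_le_mul_of_nonneg_right _ (sq_nonneg _)
      rcases Nat.eq_zero_or_pos (Fintype.card J) with h0 | h0
      · rw [h0]; norm_num
      · have : (1:ℝ) ≤ Fintype.card J := by exact_mod_cast h0
        nlinarith
    have h4 : (0:ℝ) ≤ (Fintype.card J : ℝ) * dist w w' := by positivity
    rw [NNReal.coe_natCast]
    rw [dist_pi_le_iff h4]
    intro i
    rw [Real.dist_eq]
    apply abs_le_of_sq_le_sq _ h4
    refine le_trans ?_ (h1.trans (h2.trans h3))
    exact Finset.single_le_sum (f := fun i => (Φ w i - Φ w' i) ^ 2) (fun i _ => sq_nonneg _)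
      (Finset.mem_univ i)
  have hsub : slice f I q ⊆ Φ '' W := by
    rintro x ⟨p, h1, h2⟩
    set w : J → ℝ := fun i => x i - p i with hw
    have hPw : P w x := ⟨p, h1, h2, fun i => rfl⟩
    refine ⟨w, ⟨x, hPw⟩, ?_⟩
    have h3 := hkey w w _ _ (hΦP w ⟨x, hPw⟩) hPw
    have h4 : ∑ i : J, (w i - w i) ^ 2 = 0 := by simp
    rw [h4] at h3
    have h5 := (Finset.sum_eq_zero_iff_of_nonneg (fun i _ => sq_nonneg (Φ w i - x i))).1
      (le_antisymm h3 (Finset.sum_nonneg fun i _ => sq_nonneg _))
    funext i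
    have h6 := h5 i (Finset.mem_univ i)
    have h7 : Φ w i - x i = 0 := by
      exact pow_eq_zero_iff (two_ne_zero) |>.1 h6
    linarith
  refine (dimH_mono hsub).trans ((hLip.dimH_image_le).trans ?_)
  refine (dimH_mono (subset_univ _)).trans ?_
  rw [Real.dimH_univ_pi]
  have : Fintype.card J = Fintype.card ι - I.card := by
    have h1 : Fintype.card {i : ι // i ∉ I} = Fintype.card ι - I.card := by
      simp
    exact h1
  rw [this]

theorem slice_univ (f : (ι → ℝ) → ℝ) (q : ι → ℚ) {I : Finset ι} (hI : ∀ i, i ∈ I) :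
    (slice f I q).Subsingleton := by
  rintro x ⟨p, h1, h2⟩ y ⟨p', h1', h2'⟩
  have h3 := superGrad_mono h1 h1'
  have h4 : ∑ i, (x i - p i - (y i - p' i)) ^ 2 = 0 := by
    apply Finset.sum_eq_zero
    intro i _
    rw [h2 i (hI i), h2' i (hI i), sub_self]
    norm_num
  rw [h4] at h3
  have h5 := (Finset.sum_eq_zero_iff_of_nonneg (fun i _ => sq_nonneg (x i - y i))).1
    (le_antisymm h3 (Finset.sum_nonneg fun i _ => sq_nonneg _))
  funext i
  have h6 := h5 i (Finset.mem_univ i)
  have h7 : x i - y i = 0 := pow_eq_zero_iff (two_ne_zero) |>.1 h6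
  linarith

/-- the points with `j + 1` affinely independent supergradients -/
def multi (f : (ι → ℝ) → ℝ) (j : ℕ) : Set (ι → ℝ) :=
  {x | ∃ p : Fin (j + 1) → ι → ℝ, AffineIndependent ℝ p ∧ ∀ l, SuperGrad f x (p l)}

theorem multi_sub_slice (f : (ι → ℝ) → ℝ) (j : ℕ) {x : ι → ℝ} (hx : x ∈ multi f j) :
    ∃ (I : Finset ι) (q : ι → ℚ), I.card = j ∧ x ∈ slice f I q := by
  classical
  obtain ⟨p, hp, hs⟩ := hx
  -- the difference vectors
  set v : Fin j → ι → ℝ := fun l => p l.succ - p 0 with hv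
  have hvi : LinearIndependent ℝ v := by
    have h1 := (affineIndependent_iff_linearIndependent_vsub ℝ p 0).1 hp
    have h2 := h1.comp (fun l : Fin j => (⟨l.succ, Fin.succ_ne_zero l⟩ : {x // x ≠ (0 : Fin (j+1))}))
      (by
        intro a b hab
        simpa using hab)
    exact h2
  -- the columns span
  set c : ι → Fin j → ℝ := fun i l => v l i with hc
  have hspan : Submodule.span ℝ (range c) = ⊤ := by
    have h1 : (Matrix.of v).rank = j := by
      have := LinearIndependent.rank_matrix (R := ℝ) (M := Matrix.of v) hvi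
      rw [this, Fintype.card_fin]
    rw [Matrix.rank_eq_finrank_span_cols] at h1
    apply Submodule.eq_top_of_finrank_eq
    rw [Module.finrank_fin_fun]
    exact h1
  obtain ⟨κ, a, ha, hspan2, hind⟩ := exists_linearIndependent' ℝ c
  rw [hspan] at hspan2
  have hfin : Finite κ := Finite.of_injective a ha
  have : Fintype κ := Fintype.ofFinite κ
  have hcard : Fintype.card κ = j := by
    have h1 := Module.finrank_eq_card_basis (Module.Basis.mk hind hspan2.ge)
    rw [Module.finrank_fin_fun] at h1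
    exact h1.symm
  -- the linear map
  set θ : (Fin j → ℝ) →ₗ[ℝ] (κ → ℝ) :=
    LinearMap.pi (fun m => ∑ l, (c (a m) l) • LinearMap.proj l) with hθ
  have hθa : ∀ t m, θ t m = ∑ l, t l * v l (a m) := by
    intro t m
    rw [hθ]
    simp only [LinearMap.pi_apply, LinearMap.sum_apply, LinearMap.smul_apply, LinearMap.proj_apply,
      smul_eq_mul]
    refine Finset.sum_congr rfl fun l _ => ?_
    rw [hc]
    ring
  have hinj : Function.Injective θ := by
    rw [← LinearMap.ker_eq_bot, LinearMap.ker_eq_bot']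
    intro t ht
    -- the functional given by t vanishes on the columns
    set ℓ : (Fin j → ℝ) →ₗ[ℝ] ℝ := ∑ l, t l • LinearMap.proj l with hℓ
    have hℓa : ∀ y, ℓ y = ∑ l, t l * y l := by
      intro y
      rw [hℓ]
      simp [LinearMap.sum_apply]
    have h1 : ∀ y ∈ Submodule.span ℝ (range (c ∘ a)), ℓ y = 0 := by
      intro y hy
      have h2 : Submodule.span ℝ (range (c ∘ a)) ≤ LinearMap.ker ℓ := by
        rw [Submodule.span_le]
        rintro _ ⟨m, rfl⟩
        rw [SetLike.mem_coe, LinearMap.mem_ker, hℓa]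
        have := congrFun ht m
        rw [hθa] at this
        exact this
      exact h2 hy
    funext l
    have h2 := h1 (Pi.single l 1) (by rw [hspan2]; trivial)
    rw [hℓa, Finset.sum_eq_single l] at h2
    · simpa using h2
    · intro m _ hm
      simp [hm]
    · intro h0; exact absurd (Finset.mem_univ _) h0
  have hsurj : Function.Surjective θ := by
    apply (LinearMap.injective_iff_surjective_of_finrank_eq_finrank _).1 hinj
    rw [Module.finrank_fin_fun, Module.finrank_fintype_fun_eq_card, hcard]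
  have hopen : IsOpenMap θ := LinearMap.isOpenMap_of_finiteDimensional θ hsurj
  -- the open simplex
  set U : Set (Fin j → ℝ) := {t | (∀ l, 0 < t l) ∧ ∑ l, t l < 1} with hU
  have hUo : IsOpen U := by
    have h1 : U = (⋂ l, {t | 0 < t l}) ∩ {t | ∑ l, t l < 1} := by
      ext t
      simp [hU]
    rw [h1]
    apply IsOpen.inter
    · apply isOpen_iInter_of_finite
      intro l
      exact isOpen_lt continuous_const (continuous_apply l)
    · exact isOpen_lt (continuous_finsetSum _ (fun l _ => continuous_apply l)) continuous_const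
  have hUn : U.Nonempty := by
    refine ⟨fun _ => 1 / ((j : ℝ) + 1), fun l => by positivity, ?_⟩
    rw [Finset.sum_const, Finset.card_univ, Fintype.card_fin, nsmul_eq_mul, mul_one_div,
      div_lt_one (by positivity)]
    linarith
  -- a rational point
  set V : Set (κ → ℝ) := (fun y : κ → ℝ => fun m => x (a m) - p 0 (a m) - y m) '' (θ '' U) with hV
  have hVo : IsOpen V := by
    have h1 : IsOpenMap (fun y : κ → ℝ => fun m => x (a m) - p 0 (a m) - y m) := by
      have : (fun y : κ → ℝ => fun m => x (a m) - p 0 (a m) - y m) =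
          (Homeomorph.subLeft (fun m => x (a m) - p 0 (a m)) : (κ → ℝ) ≃ₜ (κ → ℝ)) := by
        funext y m
        simp
      rw [this]
      exact Homeomorph.isOpenMap _
    exact h1 _ (hopen _ hUo)
  have hVn : V.Nonempty := (hUn.image _).image _
  have hdense : DenseRange (fun (q : κ → ℚ) (m : κ) => ((q m : ℚ) : ℝ)) := by
    exact DenseRange.piMap (fun _ => Rat.denseRange_cast)
  obtain ⟨q, hq⟩ := hdense.exists_mem_open hVo hVn
  obtain ⟨_, ⟨t, ht, rfl⟩, hq2⟩ := hq
  -- the weights
  have hg : SuperGrad f x (fun i => p 0 i + ∑ l, t l * v l i) := by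
    have h1 := superGrad_convex hs (w := Fin.cons (1 - ∑ l, t l) t) (by
      intro l
      refine Fin.cases ?_ (fun l => ?_) l
      · rw [Fin.cons_zero]; linarith [ht.2]
      · rw [Fin.cons_succ]; exact (ht.1 l).le) (by
      rw [Fin.sum_univ_succ]
      simp)
    have h2 : (fun i => ∑ l, (Fin.cons (1 - ∑ l, t l) t : Fin (j + 1) → ℝ) l * p l i) =
        (fun i => p 0 i + ∑ l, t l * v l i) := by
      funext i
      rw [Fin.sum_univ_succ]
      simp only [Fin.cons_zero, Fin.cons_succ, hv, Pi.sub_apply]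
      simp_rw [mul_sub]
      rw [Finset.sum_sub_distrib, ← Finset.sum_mul]
      ring
    rw [h2] at h1
    exact h1
  refine ⟨Finset.univ.image a, fun i => if h : ∃ m, a m = i then q h.choose else 0, ?_, _, hg, ?_⟩
  · rw [Finset.card_image_of_injective _ ha, Finset.card_univ, hcard]
  · intro i hi
    obtain ⟨m, _, rfl⟩ := Finset.mem_image.1 hi
    have hex : ∃ m', a m' = a m := ⟨m, rfl⟩
    have hm : hex.choose = m := ha hex.choose_spec
    simp only
    rw [dif_pos hex, hm]
    have h1 := congrFun hq2 m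
    simp only at h1
    rw [hθa] at h1
    rw [← h1]
    ring

/-- **The dimension of the set of the points with many supergradients.** -/
theorem dimH_multi (f : (ι → ℝ) → ℝ) (j : ℕ) : dimH (multi f j) ≤ (Fintype.card ι - j : ℕ) := by
  classical
  have hsub : multi f j ⊆ ⋃ (a : {I : Finset ι // I.card = j} × (ι → ℚ)), slice f a.1.1 a.2 := by
    intro x hx
    obtain ⟨I, q, h1, h2⟩ := multi_sub_slice f j hx
    exact mem_iUnion.2 ⟨(⟨I, h1⟩, q), h2⟩
  refine (dimH_mono hsub).trans ?_
  rw [dimH_iUnion]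
  apply iSup_le
  rintro ⟨⟨I, hI⟩, q⟩
  have := dimH_slice f I q
  rw [hI] at this
  exact this

/-- **Points with the maximal number of supergradients are countably many.** -/
theorem countable_multi (f : (ι → ℝ) → ℝ) : (multi f (Fintype.card ι)).Countable := by
  classical
  have hsub : multi f (Fintype.card ι) ⊆ ⋃ (q : ι → ℚ), slice f Finset.univ q := by
    intro x hx
    obtain ⟨I, q, h1, h2⟩ := multi_sub_slice f _ hx
    rw [Finset.card_eq_iff_eq_univ] at h1
    rw [h1] at h2
    exact mem_iUnion.2 ⟨q, h2⟩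
  apply Set.Countable.mono hsub
  apply countable_iUnion
  intro q
  exact (slice_univ f q (fun i => Finset.mem_univ i)).countable

end

section torus

variable {d : ℕ} {ι : Type} [Fintype ι]

/-- limits of expectation values are supergradients -/
theorem superGrad_of_cluster [DecidableEq ι] (hd : 2 ≤ d) (R : Finset (ℤ × ℤ))
    (x₀ : (R → Fin d) → (R → Fin d) → ℝ)
    (T : (ι → ℝ) →ₗ[ℝ] ((R → Fin d) → (R → Fin d) → ℝ)) (s p : ι → ℝ)
    (hp : ∀ ε : ℝ, 0 < ε → ∀ N : ℕ, ∃ (L : ℕ) (_ : NeZero L), N ≤ L ∧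
      ∃ ψ : (Site L → Fin d) → ℂ, TIGround (ham R (herm (x₀ + T s)) L) ψ ∧
        ∀ i, |lin (redState R ψ) (T (Pi.single i 1)) - p i| ≤ ε) :
    SuperGrad (fam (limStates d R) x₀ T) s p := by
  intro y
  apply le_of_forall_pos_le_add
  intro ε hε
  set C : ℝ := size (herm (x₀ + T y)) with hC
  have hC0 : 0 ≤ C := size_nonneg _
  set B : ℝ := ∑ i, |y i - s i| with hB
  have hB0 : 0 ≤ B := Finset.sum_nonneg fun i _ => abs_nonneg _
  set δ : ℝ := ε / (1 + C + B) with hδ
  have hδ0 : 0 < δ := by positivity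
  have hδe : δ * (1 + C + B) = ε := by rw [hδ]; field_simp
  obtain ⟨L₁, hL₁⟩ := unif hd R δ hδ0
  obtain ⟨L₂, hL₂⟩ := ground_low hd R (x₀ + T s) δ hδ0
  obtain ⟨L, _, hL, ψ, hψ, hψp⟩ := hp δ hδ0 (max L₁ L₂)
  have h1 := hL₂ L ((le_max_right _ _).trans hL) (x₀ + T s) (by simp) ψ hψ.1 hψ.2.1
    (hψ.isGround (herm_isHermitian _))
  obtain ⟨τ, hτ, hτ2⟩ := (hL₁ L ((le_max_left _ _).trans hL)).2 ψ hψ.1 hψ.2.1
  have h2 := low_le (limStates_bound R) (x₀ + T y) hτ
  have h3 := abs_le.mp (pair_le (herm (x₀ + T y)) _ _ _ hτ2)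
  have h31 : (∑ a, ∑ b, ‖herm (x₀ + T y) a b‖) = C := rfl
  rw [h31] at h3
  set σ := redState R ψ with hσ
  have h4 : lin σ (x₀ + T y) = lin σ (x₀ + T s) + ∑ i, (y i - s i) * lin σ (T (Pi.single i 1)) := by
    have e1 : x₀ + T y = x₀ + T s + T (y - s) := by rw [map_sub]; abel
    rw [e1, map_add]
    congr 1
    have e2 : y - s = ∑ i, (y i - s i) • (Pi.single i 1 : ι → ℝ) := by
      funext j
      rw [Finset.sum_apply, Finset.sum_eq_single j]
      · simp
      · intro i _ hij
        simp [hij.symm]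
      · intro h0; exact absurd (Finset.mem_univ _) h0
    rw [e2, map_sum, map_sum]
    refine Finset.sum_congr rfl fun i _ => ?_
    rw [map_smul, map_smul, smul_eq_mul]
  have h5 : ∑ i, (y i - s i) * lin σ (T (Pi.single i 1)) ≤
      ∑ i, p i * (y i - s i) + δ * B := by
    rw [hB, Finset.mul_sum, ← Finset.sum_add_distrib]
    refine Finset.sum_le_sum fun i _ => ?_
    have e1 : (y i - s i) * lin σ (T (Pi.single i 1)) - p i * (y i - s i) =
        (y i - s i) * (lin σ (T (Pi.single i 1)) - p i) := by ring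
    have e2 : (y i - s i) * (lin σ (T (Pi.single i 1)) - p i) ≤ |y i - s i| * δ := by
      refine (le_abs_self _).trans ?_
      rw [abs_mul]
      exact mul_le_mul_of_nonneg_left (hψp i) (abs_nonneg _)
    linarith
  show fam (limStates d R) x₀ T y ≤ fam (limStates d R) x₀ T s + ∑ i, p i * (y i - s i) + ε
  unfold fam
  simp only [lin_apply] at h2 h3 h4 h1
  have h6 : C * δ + δ + δ * B = ε := by rw [← hδe]; ring
  simp only [lin_apply] at h5
  linarith [h3.1, h3.2]

end torus

end Pool.Agent.Helper37.Pe
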