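import Mathlib
import Pool.Agent.Helper37.Pe.Phase

set_option autoImplicit false
set_option linter.unusedSectionVars false

/-!
Phase diagrams of finite dimensional families of interactions.
-/

open Set Filter Topology Metric MeasureTheory
open scoped NNReal BigOperators
open Pool.Agent.H4R2 Pool.Agent.Y665.PE

namespace Pool.Agent.Helper37.Pe

/-- `E` is covered by countably many Lipschitz graphs. -/
def GraphCover {ι : Type} [Fintype ι] (E : Set (ι → ℝ)) : Prop :=
  ∃ (i : ℕ → ι) (g : ℕ → (ι → ℝ) → ℝ), (∀ m, ∃ C : ℝ≥0, LipschitzWith C (g m)) ∧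
    (∀ m, ∀ s t : ι → ℝ, (∀ j, j ≠ i m → s j = t j) → g m s = g m t) ∧
    ∀ s ∈ E, ∃ m, s (i m) = g m s

theorem cover_nondiff {ι : Type} [Fintype ι] [Nonempty ι] {f : (ι → ℝ) → ℝ}
    (hf : ConcaveOn ℝ univ f) {L : ℝ≥0} (hL : LipschitzWith L f) :
    GraphCover {s | ¬ DifferentiableAt ℝ f s} ∧
      dimH {s | ¬ DifferentiableAt ℝ f s} ≤ (Fintype.card ι - 1 : ℕ) := by
  classical
  obtain ⟨i, g, h1, h2, h3⟩ := nondiff_graphs (Pi.basisFun ℝ ι) hf hL
  have hc : ∀ (j : ι) (x : ι → ℝ), (Pi.basisFun ℝ ι).coord j x = x j := by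
    intro j x
    simp
  refine ⟨⟨i, g, h1, ?_, ?_⟩, dimH_graphs (Pi.basisFun ℝ ι) h1 h2 (fun x hx => h3 x hx)⟩
  · intro m s t hst
    have h4 := h2 m s (t (i m) - s (i m))
    rw [← h4]
    congr 1
    funext j
    rw [Pi.basisFun_apply]
    by_cases hj : j = i m
    · rw [hj]; simp
    · simp [hj, hst j hj]
  · intro s hs
    obtain ⟨m, hm⟩ := h3 s hs
    rw [hc] at hm
    exact ⟨m, hm⟩

section herm

variable {n : Type*} [Fintype n]

lemma herm_add (x y : n → n → ℝ) : herm (x + y) = herm x + herm y := by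
  ext a b
  rw [Matrix.add_apply]
  unfold herm
  simp only [Pi.add_apply]
  push_cast
  ring

lemma herm_smul (c : ℝ) (x : n → n → ℝ) : herm (c • x) = (c : ℂ) • herm x := by
  ext a b
  rw [Matrix.smul_apply]
  unfold herm
  simp only [Pi.smul_apply, smul_eq_mul]
  push_cast
  ring

lemma herm_zero : herm (0 : n → n → ℝ) = 0 := by
  ext a b
  simp [herm]

lemma herm_sum {ι : Type*} (S : Finset ι) (x : ι → n → n → ℝ) :
    herm (∑ i ∈ S, x i) = ∑ i ∈ S, herm (x i) := by
  classical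
  induction S using Finset.induction_on with
  | empty => simp [herm_zero]
  | insert a S ha ih => rw [Finset.sum_insert ha, Finset.sum_insert ha, herm_add, ih]

lemma herm_injective : Function.Injective (herm : (n → n → ℝ) → Matrix n n ℂ) := by
  intro x y h
  funext a b
  have h1 := congrFun (congrFun h a) b
  unfold herm at h1
  have h2 := congrArg Complex.re h1
  have h3 := congrArg Complex.im h1
  simp at h2 h3
  linarith

lemma pair_im [DecidableEq n] {h ρ : Matrix n n ℂ} (hh : h.IsHermitian) (hρ : ρ.IsHermitian) :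
    (pair h ρ).im = 0 := by
  have h1 : (starRingEnd ℂ) (pair h ρ) = pair h ρ := by
    unfold pair
    rw [map_sum]
    simp_rw [map_sum]
    rw [Finset.sum_comm]
    refine Finset.sum_congr rfl fun a _ => Finset.sum_congr rfl fun b _ => ?_
    rw [map_mul]
    have e1 : (starRingEnd ℂ) (h b a) = h a b := hh.apply a b
    have e2 : (starRingEnd ℂ) (ρ a b) = ρ b a := hρ.apply b a
    rw [e1, e2]
  exact Complex.conj_eq_iff_im.1 h1

lemma trace_eq_pair (h ρ : Matrix n n ℂ) : (h * ρ).trace = pair h ρ := by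
  unfold pair Matrix.trace
  refine Finset.sum_congr rfl fun a _ => ?_
  rw [Matrix.diag_apply, Matrix.mul_apply]

end herm

variable {d : ℕ}

/-- **Phase diagrams of finite dimensional families.** -/
theorem families (hd : 2 ≤ d) (R : Finset (ℤ × ℤ)) (k : ℕ) (hk : 0 < k)
    (h : Matrix (R → Fin d) (R → Fin d) ℂ) (hh : h.IsHermitian)
    (O : Fin k → Matrix (R → Fin d) (R → Fin d) ℂ) (hO : ∀ j, (O j).IsHermitian) :
    ∃ E : Set (Fin k → ℝ), GraphCover E ∧ dimH E ≤ (k - 1 : ℕ) ∧ ∀ s, s ∉ E →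
      (∀ ε : ℝ, 0 < ε → ∃ A : Tensor d (bondDim d R ε), ∃ δ : ℝ, 0 < δ ∧ ∃ L₀ : ℕ,
        ∀ (L : ℕ) [NeZero L], L₀ ≤ L → contract A L ≠ 0 ∧
          ∀ s', ‖s' - s‖ ≤ δ → ∀ ψ : (Site L → Fin d) → ℂ,
            TIGround (ham R (h + ∑ j, (s' j : ℂ) • O j) L) ψ →
            ∀ j, (∀ a b, ‖O j a b‖ ≤ 1) →
              ‖(O j * (redState R ψ - redState R (contract A L))).trace‖ ≤ ε) ∧
      ((∀ M : Matrix (R → Fin d) (R → Fin d) ℂ, M.IsHermitian →
          ∃ t : Fin k → ℝ, M = ∑ j, (t j : ℂ) • O j) →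
        ∀ R₀ : Finset (ℤ × ℤ), R₀ ⊆ R → ∀ ε : ℝ, 0 < ε →
        ∃ A : Tensor d (bondDim d R₀ ε), ∃ δ : ℝ, 0 < δ ∧ ∃ L₀ : ℕ,
          ∀ (L : ℕ) [NeZero L], L₀ ≤ L → contract A L ≠ 0 ∧
          ∀ s', ‖s' - s‖ ≤ δ → ∀ ψ : (Site L → Fin d) → ℂ,
            TIGround (ham R (h + ∑ j, (s' j : ℂ) • O j) L) ψ →
            traceNorm (redState R₀ ψ - redState R₀ (contract A L)) ≤ ε) := by
  classical
  obtain ⟨x₀, hx₀⟩ := exists_herm hh
  choose x hx using fun j => exists_herm (hO j)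
  set T : (Fin k → ℝ) →ₗ[ℝ] ((R → Fin d) → (R → Fin d) → ℝ) :=
    ∑ j, (LinearMap.proj j).smulRight (x j) with hT
  have hTa : ∀ s, T s = ∑ j, s j • x j := by
    intro s
    rw [hT]
    simp [LinearMap.sum_apply]
  have hham : ∀ s, herm (x₀ + T s) = h + ∑ j, (s j : ℂ) • O j := by
    intro s
    rw [herm_add, hx₀, hTa, herm_sum]
    simp_rw [herm_smul, hx]
  have : Nonempty (Fin k) := ⟨⟨0, hk⟩⟩
  have hKb := limStates_bound (d := d) R
  have hKn := limStates_nonempty hd R
  obtain ⟨C, hC⟩ := fam_lipschitz hKb hKn x₀ T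
  obtain ⟨hE1, hE2⟩ := cover_nondiff (fam_concave hKb hKn x₀ T) hC
  rw [Fintype.card_fin] at hE2
  refine ⟨{s | ¬ DifferentiableAt ℝ (fam (limStates d R) x₀ T) s}, hE1, hE2, ?_⟩
  intro s hs
  have hs' : DifferentiableAt ℝ (fam (limStates d R) x₀ T) s := by
    by_contra h0
    exact hs h0
  constructor
  · intro ε hε
    obtain ⟨A, δ, hδ, L₀, hL₀⟩ := fam_tensor hd R x₀ T hs' ε hε
    refine ⟨A, δ, hδ, L₀, fun L _ hL => ⟨(hL₀ L hL).1, fun s' hs1 ψ hψ j hj => ?_⟩⟩
    have e1 : T (Pi.single j 1) = x j := by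
      rw [hTa, Finset.sum_eq_single j]
      · simp
      · intro i _ hij
        simp [hij]
      · intro h0; exact absurd (Finset.mem_univ _) h0
    have h1 := (hL₀ L hL).2 s' hs1 ψ (by rw [hham]; exact hψ) (Pi.single j 1) (by
      rw [pi_norm_le_iff_of_nonneg zero_le_one]
      intro i
      by_cases hij : i = j
      · rw [hij]; simp
      · simp [hij]) (by rw [e1, hx]; exact hj)
    rw [e1, lin_apply, lin_apply, hx] at h1
    rw [trace_eq_pair]
    have e2 : pair (O j) (redState R ψ - redState R (contract A L)) =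
        pair (O j) (redState R ψ) - pair (O j) (redState R (contract A L)) := by
      unfold pair
      rw [← Finset.sum_sub_distrib]
      refine Finset.sum_congr rfl fun a _ => ?_
      rw [← Finset.sum_sub_distrib]
      refine Finset.sum_congr rfl fun b _ => ?_
      rw [Matrix.sub_apply]
      ring
    have e3 : (pair (O j) (redState R ψ - redState R (contract A L))).im = 0 := by
      apply pair_im (hO j)
      exact (redState_herm R ψ).sub (redState_herm R _)
    have e4 : pair (O j) (redState R ψ - redState R (contract A L)) =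
        (((pair (O j) (redState R ψ)).re - (pair (O j) (redState R (contract A L))).re : ℝ) : ℂ) := by
      apply Complex.ext
      · rw [e2, Complex.sub_re, Complex.ofReal_re]
      · rw [e3, Complex.ofReal_im]
    rw [e4, Complex.norm_real, Real.norm_eq_abs]
    exact h1
  · intro hspan R₀ hR ε hε
    have hsurj : Function.Surjective T := by
      intro y
      obtain ⟨t, ht⟩ := hspan (herm y) (herm_isHermitian y)
      refine ⟨t, ?_⟩
      apply herm_injective
      rw [ht, hTa, herm_sum]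
      simp_rw [herm_smul, hx]
    have h1 := low_diff_of_fam x₀ T hsurj hs'
    obtain ⟨A, δ, hδ, L₀, hL₀⟩ := diff_unif hd hR h1 ε hε
    obtain ⟨M, hM0, hM⟩ := lin_bound T
    refine ⟨A, δ / (M + 1), by positivity, L₀, fun L _ hL => ⟨(hL₀ L hL).1, fun s' hs1 ψ hψ => ?_⟩⟩
    rw [← hham] at hψ
    apply (hL₀ L hL).2 (x₀ + T s') _ ψ hψ.1 hψ.2.1 (hψ.isGround (herm_isHermitian _))
    rw [add_sub_add_left_eq_sub, ← map_sub]
    refine (hM _).trans ?_
    calc M * ‖s' - s‖ ≤ M * (δ / (M + 1)) := mul_le_mul_of_nonneg_left hs1 hM0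
      _ ≤ δ := by
        rw [mul_div_assoc', div_le_iff₀ (by positivity)]
        nlinarith

/-- `p` is a limit of the expectation values of the `O j` in ground vectors of the interaction
with the parameters `s`. -/
def LimitValue (R : Finset (ℤ × ℤ)) {k : ℕ} (h : Matrix (R → Fin d) (R → Fin d) ℂ)
    (O : Fin k → Matrix (R → Fin d) (R → Fin d) ℂ) (s p : Fin k → ℝ) : Prop :=
  ∀ ε : ℝ, 0 < ε → ∀ N : ℕ, ∃ (L : ℕ) (_ : NeZero L), N ≤ L ∧
    ∃ ψ : (Site L → Fin d) → ℂ, TIGround (ham R (h + ∑ j, (s j : ℂ) • O j) L) ψ ∧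
      ∀ j, ‖(O j * redState R ψ).trace - (p j : ℂ)‖ ≤ ε

/-- **The phase rule.** -/
theorem phase_rule (hd : 2 ≤ d) (R : Finset (ℤ × ℤ)) (k : ℕ)
    (h : Matrix (R → Fin d) (R → Fin d) ℂ) (hh : h.IsHermitian)
    (O : Fin k → Matrix (R → Fin d) (R → Fin d) ℂ) (hO : ∀ j, (O j).IsHermitian) :
    (∀ j : ℕ, dimH {s : Fin k → ℝ | ∃ p : Fin (j + 1) → Fin k → ℝ, AffineIndependent ℝ p ∧
      ∀ l, LimitValue R h O s (p l)} ≤ (k - j : ℕ)) ∧
    {s : Fin k → ℝ | ∃ p : Fin (k + 1) → Fin k → ℝ, AffineIndependent ℝ p ∧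
      ∀ l, LimitValue R h O s (p l)}.Countable := by
  classical
  obtain ⟨x₀, hx₀⟩ := exists_herm hh
  choose x hx using fun j => exists_herm (hO j)
  set T : (Fin k → ℝ) →ₗ[ℝ] ((R → Fin d) → (R → Fin d) → ℝ) :=
    ∑ j, (LinearMap.proj j).smulRight (x j) with hT
  have hTa : ∀ s, T s = ∑ j, s j • x j := by
    intro s
    rw [hT]
    simp [LinearMap.sum_apply]
  have hham : ∀ s, herm (x₀ + T s) = h + ∑ j, (s j : ℂ) • O j := by
    intro s
    rw [herm_add, hx₀, hTa, herm_sum]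
    simp_rw [herm_smul, hx]
  have e1 : ∀ j, T (Pi.single j 1) = x j := by
    intro j
    rw [hTa, Finset.sum_eq_single j]
    · simp
    · intro i _ hij
      simp [hij]
    · intro h0; exact absurd (Finset.mem_univ _) h0
  have hLV : ∀ s p, LimitValue R h O s p → SuperGrad (fam (limStates d R) x₀ T) s p := by
    intro s p hp
    apply superGrad_of_cluster hd R x₀ T s p
    intro ε hε N
    obtain ⟨L, hL0, hL, ψ, hψ, hψp⟩ := hp ε hε N
    refine ⟨L, hL0, hL, ψ, by rw [hham]; exact hψ, fun i => ?_⟩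
    have h1 := hψp i
    rw [trace_eq_pair] at h1
    rw [e1, lin_apply, hx]
    have h2 := Complex.abs_re_le_norm (pair (O i) (redState R ψ) - (p i : ℂ))
    rw [Complex.sub_re, Complex.ofReal_re] at h2
    exact h2.trans h1
  have hsub : ∀ j, {s : Fin k → ℝ | ∃ p : Fin (j + 1) → Fin k → ℝ, AffineIndependent ℝ p ∧
      ∀ l, LimitValue R h O s (p l)} ⊆ multi (fam (limStates d R) x₀ T) j := by
    rintro j s ⟨p, h1, h2⟩
    exact ⟨p, h1, fun l => hLV s _ (h2 l)⟩
  constructor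
  · intro j
    have h1 := dimH_multi (fam (limStates d R) x₀ T) j
    rw [Fintype.card_fin] at h1
    exact (dimH_mono (hsub j)).trans h1
  · have h1 := countable_multi (fam (limStates d R) x₀ T)
    rw [Fintype.card_fin] at h1
    exact h1.mono (hsub k)

end Pool.Agent.Helper37.Pe
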